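import Pool.Agent.H.MP_cfc732_al.Epi

set_option autoImplicit false

namespace Pool.Agent.Results.MP_cfc732_al.Houghton

open Pool.Agent.H.MP_cfc732_al

theorem coe_prod (X : Finset HH) (w : List X) :
    (((w.map Subtype.val).prod : HH) : Equiv.Perm ℤ) = val (fun x : X => (x.1 : Equiv.Perm ℤ)) w := by
  induction w with
  | nil => rfl
  | cons x w ih => rw [List.map_cons, List.prod_cons, val_cons, Subgroup.coe_mul, ih]

theorem result :
    ∃ (G : Type) (_ : Group G),
      (∃ X : Finset G, Submonoid.closure (X : Set G) = ⊤ ∧
        ∃ L : Language X, L.IsRegular ∧ [] ∉ L ∧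
          (fun w : List X => (w.map Subtype.val).prod) '' L = {g : G | g ≠ 1}) ∧
      ¬ ∃ X : Finset G, Submonoid.closure (X : Set G) = ⊤ ∧
        ∃ L : Language X, L.IsRegular ∧
          Set.BijOn (fun w : List X => (w.map Subtype.val).prod) L Set.univ := by
  classical
  refine ⟨HH, inferInstance, ?_, ?_⟩
  · let gg : Fin 7 → HH := fun i => ⟨gen i, gen_mem i⟩
    let X : Finset HH := Finset.univ.image gg
    let f : X → Fin 7 := fun x => cl x.1.1
    let e : Fin 7 → X := fun i => ⟨gg i, Finset.mem_image_of_mem _ (Finset.mem_univ i)⟩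
    have hfe : ∀ i, f (e i) = i := cl_gen
    have hgf : ∀ x : X, gen (f x) = x.1.1 := by
      rintro ⟨x, hx⟩
      obtain ⟨i, _, rfl⟩ := Finset.mem_image.mp hx
      exact congrArg gen (cl_gen i)
    have hval : ∀ w : List X, (((w.map Subtype.val).prod : HH) : Equiv.Perm ℤ) =
        val gen (w.map f) := by
      intro w
      rw [coe_prod]
      simp only [val, List.map_map]
      congr 1
      exact List.map_congr_left (fun x _ => (hgf x).symm)
    have him : (fun w : List X => (w.map Subtype.val).prod) '' (M0.comap f).accepts =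
        {g : HH | g ≠ 1} := by
      ext g
      constructor
      · rintro ⟨w, hw, rfl⟩ h1
        rw [DFA.accepts_comap] at hw
        apply acc_ne_one _ hw
        rw [← hval]
        exact congrArg Subtype.val h1
      · intro hg
        obtain ⟨w, hw, hv⟩ := exists_acc g.1 g.2 (fun h => hg (Subtype.ext h))
        have hm : (w.map e).map f = w := by
          rw [List.map_map]
          exact (List.map_congr_left (fun i _ => hfe i)).trans (List.map_id w)
        refine ⟨w.map e, ?_, Subtype.ext ?_⟩
        · rw [DFA.accepts_comap]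
          change (w.map e).map f ∈ M0.accepts
          rw [hm]; exact hw
        · change (((List.map Subtype.val (w.map e)).prod : HH) : Equiv.Perm ℤ) = _
          rw [hval, hm, hv]
    refine ⟨X, ?_, (M0.comap f).accepts, ⟨St, inferInstance, _, rfl⟩, ?_, him⟩
    · rw [eq_top_iff]
      intro g _
      by_cases hg : g = 1
      · rw [hg]; exact Submonoid.one_mem _
      · have : g ∈ (fun w : List X => (w.map Subtype.val).prod) '' (M0.comap f).accepts := by
          rw [him]; exact hg
        obtain ⟨w, _, rfl⟩ := this
        apply Submonoid.list_prod_mem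
        intro x hx
        obtain ⟨a, _, rfl⟩ := List.mem_map.mp hx
        exact Submonoid.subset_closure a.2
    · intro h
      exact h.1 rfl
  · rintro ⟨X, _, L, ⟨σ, _, M, rfl⟩, hb⟩
    refine no_rcs (fun x : X => (x.1 : Equiv.Perm ℤ)) (fun x => x.1.2) M ?_ ?_
    · intro u hu w hw h
      apply hb.injOn hu hw
      apply Subtype.ext
      change (((u.map Subtype.val).prod : HH) : Equiv.Perm ℤ) =
        (((w.map Subtype.val).prod : HH) : Equiv.Perm ℤ)
      rw [coe_prod, coe_prod, h]
    · intro g hg
      obtain ⟨w, hw, hv⟩ := hb.surjOn (Set.mem_univ (⟨g, hg⟩ : HH))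
      refine ⟨w, hw, ?_⟩
      rw [← coe_prod]
      exact congrArg Subtype.val hv

end Pool.Agent.Results.MP_cfc732_al.Houghton
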